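import Mathlib

/-!
# Relational structures with finite domain, pp-powers, pp-constructions

The signature of a structure may be infinite; the structures of the problem file are those with
`Finite A.sym`.
-/

set_option autoImplicit false

namespace Pool.Agent.TH728.Obs

/-- A relational structure with a finite domain. The set of relation symbols is arbitrary. -/
structure Str where
  /-- the domain -/
  dom : Type
  /-- the domain is finite -/
  finDom : Finite dom
  /-- the relation symbols -/
  sym : Type
  /-- the arities -/
  ar : sym → ℕ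
  /-- the relations -/
  rel : ∀ s, (Fin (ar s) → dom) → Prop

attribute [instance] Str.finDom

/-- pp-formulas in `n` free variables: atomic formulas (equalities and relations) closed under
conjunction and existential quantification. -/
inductive PP (S : Type) (ar : S → ℕ) : ℕ → Type
  | eq {n : ℕ} (i j : Fin n) : PP S ar n
  | rel {n : ℕ} (s : S) (v : Fin (ar s) → Fin n) : PP S ar n
  | and {n : ℕ} (p q : PP S ar n) : PP S ar n
  | ex {n : ℕ} (p : PP S ar (n + 1)) : PP S ar n

/-- Satisfaction of a pp-formula in `A`. -/
def PP.Holds (A : Str) : ∀ {n : ℕ}, PP A.sym A.ar n → (Fin n → A.dom) → Prop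
  | _, .eq i j, v => v i = v j
  | _, .rel s w, v => A.rel s (fun k => v (w k))
  | _, .and p q, v => PP.Holds A p v ∧ PP.Holds A q v
  | _, .ex p, v => ∃ a : A.dom, PP.Holds A p (Fin.snoc v a)

/-- Concatenation of `k` tuples of length `d`. -/
def concat {k d : ℕ} {α : Type} (x : Fin k → Fin d → α) : Fin (k * d) → α :=
  fun j => x (finProdFinEquiv.symm j).1 (finProdFinEquiv.symm j).2

/-- `h` is a homomorphism between the structures `(X; R)` and `(Y; Q)` over the same signature. -/
def IsHom {S : Type} {ar : S → ℕ} {X Y : Type} (R : ∀ s, (Fin (ar s) → X) → Prop)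
    (Q : ∀ s, (Fin (ar s) → Y) → Prop) (h : X → Y) : Prop :=
  ∀ s x, R s x → Q s (fun k => h (x k))

/-- The relations of the `d`-th pp-power of `A` given by the pp-formulas `ψ`: its domain is
`A ^ d`, and the relation `s` of arity `k` is defined by the formula `ψ s` with `k * d` free
variables. -/
def ppRel (A : Str) {S : Type} {ar : S → ℕ} {d : ℕ} (ψ : ∀ s : S, PP A.sym A.ar (ar s * d)) (s : S)
    (x : Fin (ar s) → Fin d → A.dom) : Prop :=
  (ψ s).Holds A (concat x)

/-- `B` has a pp-construction from `A`: some `d`-th pp-power of `A`, `d ≥ 1`, is homomorphically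
equivalent to `B`. -/
def PPConstructs (A B : Str) : Prop :=
  ∃ d : ℕ, 1 ≤ d ∧ ∃ ψ : ∀ s : B.sym, PP A.sym A.ar (B.ar s * d),
    (∃ h : (Fin d → A.dom) → B.dom, IsHom (ppRel A ψ) B.rel h) ∧
    (∃ h : B.dom → (Fin d → A.dom), IsHom B.rel (ppRel A ψ) h)

/-- The structure `𝔓₂`: two elements `0`, `1` and one binary relation `{(0, 1)}`. -/
def P2 : Str where
  dom := Fin 2
  finDom := inferInstance
  sym := Unit
  ar _ := 2
  rel _ x := x 0 = 0 ∧ x 1 = 1

end Pool.Agent.TH728.Obs
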